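import Pool.Agent.Helper1.RG.Defs

/-! # Row Q2 of the project RG (MP_c9c10f_nt) -/

set_option autoImplicit false

open MeasureTheory Complex Filter
open scoped ComplexConjugate

namespace Pool.Agent.Helper76.RG

open Pool.Agent.Helper1.RG

theorem e_add (T z w : ℂ) : e T (z + w) = e T z * e T w := by
  unfold e
  rw [← Circle.exp_add, mul_add, Complex.add_re]

theorem e_add_left (T T' z : ℂ) : e (T + T') z = e T z * e T' z := by
  unfold e
  rw [← Circle.exp_add, map_add, add_mul, Complex.add_re]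

theorem e_zero_left (z : ℂ) : e 0 z = 1 := by
  unfold e
  simp

theorem e_neg_left (T z : ℂ) : e (-T) z = (e T z)⁻¹ := by
  rw [eq_inv_iff_mul_eq_one, ← e_add_left, neg_add_cancel, e_zero_left]

theorem e_zsmul_left (T z : ℂ) (n : ℤ) : e ((n : ℂ) * T) z = e T z ^ n := by
  unfold e
  rw [← Circle.exp_zsmul]
  congr 1
  simp only [zsmul_eq_mul]
  rw [map_mul, map_intCast, mul_assoc]
  have := Complex.re_ofReal_mul (n : ℝ) (conj T * z)
  simpa using this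

theorem om_zsmul (χ : Om) (n : ℤ) (x : ℂ) : χ ((n : ℂ) * x) = χ x ^ n := by
  rw [← AddChar.map_zsmul_eq_zpow, zsmul_eq_mul]

theorem iter_mulShift (v : ℂ) (n : ℕ) (χ : Om) :
    (fun χ : Om => χ.mulShift v)^[n] χ = χ.mulShift (v ^ n) := by
  induction n with
  | zero => simp
  | succ n ih =>
    rw [Function.iterate_succ_apply', ih]
    ext x
    simp only [AddChar.mulShift_apply]
    rw [pow_succ, mul_assoc]

/-- recurrence -/
theorem recur (hMS : ST_MS) (P : Measure Om) [IsProbabilityMeasure P] (hI : InvC P) (s : Set Om)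
    (hs : MeasurableSet s) (v : ℂ) (hv : ‖v‖ = 1) :
    ∀ᵐ χ ∂P, χ ∈ s → ∃ᶠ n in atTop, χ.mulShift (v ^ n) ∈ s := by
  have hmp : MeasurePreserving (fun χ : Om => χ.mulShift v) P P := ⟨hMS v, hI v hv⟩
  have hc := hmp.conservative
  have h := hc.ae_mem_imp_frequently_image_mem hs.nullMeasurableSet
  filter_upwards [h] with χ hχ hm
  have := hχ hm
  refine this.mono fun n hn => ?_
  rw [iter_mulShift] at hn
  exact hn

/-- row Q2 -/
theorem st_Q2 (hMS : ST_MS) (hMF : ST_MF) (hQ1 : ST_Q1) : ST_Q2 := by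
  intro P hP hI m hm
  have hq : ∀ q : ℕ, ∀ᵐ χ ∂P, χ ∈ Fm m → q.Prime → ∀ k : ℕ, ∃ T : ℂ, ∀ z ∈ OP,
      χ (1 / (q : ℂ) ^ k * (m * z)) = e T (m * z) := by
    intro q
    by_cases hqp : q.Prime
    swap
    · exact Filter.Eventually.of_forall fun χ _ h => absurd h hqp
    obtain ⟨v, hv, hvk⟩ := hQ1 q hqp
    have hv' : ‖v⁻¹‖ = 1 := by rw [norm_inv, hv, inv_one]
    filter_upwards [recur hMS P hI (Fm m) (hMF.1 m hm) v hv,
      recur hMS P hI (Fm m) (hMF.1 m hm) v⁻¹ hv'] with χ h1 h2 hχ _ k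
    obtain ⟨T0, hT0⟩ := hχ
    have h1' := (h1 ⟨T0, hT0⟩).forall_exists_of_atTop
    have h2' := (h2 ⟨T0, hT0⟩).forall_exists_of_atTop
    obtain ⟨k1, hk1, T1, hT1⟩ := h1' (k + 1)
    obtain ⟨k2, hk2, T2, hT2⟩ := h2' k1
    obtain ⟨a, b, c, habc⟩ := hvk k1 k2 (by omega) hk2
    refine ⟨((((q : ℤ) ^ (k1 - k) : ℤ)) : ℂ) * ((a : ℂ) * T0 + ((b : ℂ) * T1 + (c : ℂ) * T2)),
      fun z hz => ?_⟩
    have hq0 : (q : ℂ) ≠ 0 := by exact_mod_cast hqp.ne_zero
    have e1 : (1 : ℂ) / (q : ℂ) ^ k * (m * z) =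
        ((((q : ℤ) ^ (k1 - k) : ℤ)) : ℂ) * ((a : ℂ) * (m * z) + ((b : ℂ) * (v ^ k1 * (m * z)) +
          (c : ℂ) * ((v⁻¹) ^ k2 * (m * z)))) := by
      have : (a : ℂ) * (m * z) + ((b : ℂ) * (v ^ k1 * (m * z)) +
          (c : ℂ) * ((v⁻¹) ^ k2 * (m * z))) = 1 / (q : ℂ) ^ k1 * (m * z) := by
        rw [habc]; ring
      rw [this]
      push_cast
      have hk : (q : ℂ) ^ k1 = (q : ℂ) ^ (k1 - k) * (q : ℂ) ^ k := by
        rw [← pow_add]; congr 1; omega
      rw [hk]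
      field_simp
    rw [e1, om_zsmul, AddChar.map_add_eq_mul, AddChar.map_add_eq_mul, om_zsmul, om_zsmul, om_zsmul,
      e_zsmul_left, e_add_left, e_add_left, e_zsmul_left, e_zsmul_left, e_zsmul_left, hT0 z hz]
    have f1 : χ (v ^ k1 * (m * z)) = e T1 (m * z) := hT1 z hz
    have f2 : χ ((v⁻¹) ^ k2 * (m * z)) = e T2 (m * z) := hT2 z hz
    rw [f1, f2]
  rw [← ae_all_iff] at hq
  filter_upwards [hq] with χ h1 h2 q hqp k
  exact h1 q h2 hqp k

end Pool.Agent.Helper76.RG
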